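import Pool.Agent.Y462.AR.Tool
import Pool.Agent.Y547.GE.PP

/-!
# AR-DIH6: the dihedral Artin group of label 6 acts faithfully
-/

set_option autoImplicit false

namespace Pool.Agent.Y219.AR

open Pool.Agent.Y462.AR
open Pool.Agent.Y462.PA (Am)

/-- the matrix `(1, 1; 0, 1)` -/
def S : Equiv.Perm (ℤ × ℤ) where
  toFun v := (v.1 + v.2, v.2)
  invFun v := (v.1 - v.2, v.2)
  left_inv v := by ext <;> simp
  right_inv v := by ext <;> simp

/-- the matrix `(1, 0; -3, 1)` -/
def T : Equiv.Perm (ℤ × ℤ) where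
  toFun v := (v.1, v.2 - 3 * v.1)
  invFun v := (v.1, v.2 + 3 * v.1)
  left_inv v := by ext <;> simp
  right_inv v := by ext <;> simp

theorem S_ap (p q : ℤ) : S (p, q) = (p + q, q) := rfl

theorem S_inv (p q : ℤ) : S⁻¹ (p, q) = (p - q, q) := rfl

theorem T_ap (p q : ℤ) : T (p, q) = (p, q - 3 * p) := rfl

theorem S_zpow (n : ℤ) (p q : ℤ) : (S ^ n) (p, q) = (p + n * q, q) := by
  induction n using Int.induction_on generalizing p with
  | zero => simp
  | succ n ih =>
    rw [zpow_add_one, Equiv.Perm.mul_apply, S_ap, ih]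
    ext
    · simp only
      ring
    · rfl
  | pred n ih =>
    rw [zpow_sub_one, Equiv.Perm.mul_apply, S_inv, ih]
    ext
    · simp only
      ring
    · rfl

theorem X_ap (p q : ℤ) : (S * T) (p, q) = (q - 2 * p, q - 3 * p) := by
  rw [Equiv.Perm.mul_apply, T_ap, S_ap]
  ext
  · simp only
    ring
  · rfl

theorem X2_ap (p q : ℤ) : ((S * T) ^ 2) (p, q) = (p - q, 3 * p - 2 * q) := by
  rw [pow_two, Equiv.Perm.mul_apply, X_ap, X_ap]
  ext
  · simp only
    ring
  · simp only
    ring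

theorem X3 : (S * T) ^ 3 = 1 := by
  apply Equiv.ext
  rintro ⟨p, q⟩
  rw [pow_succ', Equiv.Perm.mul_apply, X2_ap, X_ap, Equiv.Perm.one_apply]
  ext
  · simp only
    ring
  · simp only
    ring

theorem X_zpow (n : ℤ) : (S * T) ^ n = (S * T) ^ (n % 3) := by
  conv_lhs => rw [← Int.emod_add_mul_ediv n 3]
  rw [zpow_add, zpow_mul, show ((3 : ℤ)) = ((3 : ℕ) : ℤ) by rfl, zpow_natCast, X3, one_zpow,
    mul_one]

theorem alt6 {G : Type} [Group G] (x y : G) : alt 6 x y = (x * y) ^ 3 := by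
  simp only [alt, mul_one, pow_succ, pow_zero, one_mul, mul_assoc]

theorem X3' : (T * S) ^ 3 = 1 := by
  have h : (T * S) ^ 3 = S⁻¹ * (S * T) ^ 3 * S := by
    simp only [pow_succ, pow_zero, one_mul, mul_assoc, inv_mul_cancel_left]
  rw [h, X3, mul_one, inv_mul_cancel]

/-- the label 6 -/
theorem t_dih6 : S_DIH 6 := by
  intro b
  obtain ⟨φ, hφ⟩ := t_lift Bool (Equiv.Perm (ℤ × ℤ)) (fun _ _ => 6)
    (fun s => if s = b then S else T) (by
      intro s t _
      rw [alt6, alt6]
      by_cases hs : s = b <;> by_cases ht : t = b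
      · rw [if_pos hs, if_pos ht]
      · rw [if_pos hs, if_neg ht, X3, X3']
      · rw [if_neg hs, if_pos ht, X3, X3']
      · rw [if_neg hs, if_neg ht])
  have hnb : (!b) ≠ b := by cases b <;> simp
  have ha : φ (gen _ b) = S := by rw [hφ, if_pos rfl]
  have hc : φ (gen _ (!b)) = T := by rw [hφ, if_neg hnb]
  refine ⟨φ, fun x y => by rw [ha, S_ap], fun x y => ?_, ?_⟩
  · rw [hc, T_ap]
    rfl
  intro len hlen g hg hlg
  obtain ⟨a, hadef⟩ : ∃ a : D 6, a = gen _ b := ⟨_, rfl⟩
  obtain ⟨c, hcdef⟩ : ∃ c : D 6, c = gen _ (!b) := ⟨_, rfl⟩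
  rw [← hadef] at ha
  rw [← hcdef] at hc
  have hla : len a = Multiplicative.ofAdd 1 := by rw [hadef, hlen]
  have hlc : len c = Multiplicative.ofAdd 1 := by rw [hcdef, hlen]
  have hrel : (a * c) ^ 3 = (c * a) ^ 3 := by
    have h := t_rel Bool (fun _ _ => 6) b (!b) (by norm_num)
    change alt 6 _ _ = alt 6 _ _ at h
    rw [alt6, alt6, ← hadef, ← hcdef] at h
    exact h
  have hcomm : Commute a ((a * c) ^ 3) := by
    change a * (a * c) ^ 3 = (a * c) ^ 3 * a
    conv_lhs => rw [hrel]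
    simp only [pow_succ, pow_zero, one_mul, mul_assoc]
  have hz : φ ((a * c) ^ 3) = 1 := by rw [map_pow, map_mul, ha, hc, X3]
  have hlz : ∀ n : ℤ, len (((a * c) ^ 3) ^ n) = Multiplicative.ofAdd (6 * n) := by
    intro n
    rw [map_zpow, map_pow, map_mul, hla, hlc, ← ofAdd_add, ← ofAdd_nsmul, ← ofAdd_zsmul]
    congr 1
    simp only [smul_eq_mul, nsmul_eq_mul]
    push_cast
    ring
  -- the homomorphisms
  let α : Multiplicative ℤ →* Multiplicative ℤ × Multiplicative ℤ :=
    MonoidHom.inr (Multiplicative ℤ) (Multiplicative ℤ)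
  let β : Multiplicative ℤ →* Multiplicative ℤ := powMonoidHom 3
  let fA : Multiplicative ℤ × Multiplicative ℤ →* D 6 :=
    MonoidHom.noncommCoprod (zpowersHom (D 6) a) (zpowersHom (D 6) ((a * c) ^ 3)) (by
      intro m n
      rw [zpowersHom_apply, zpowersHom_apply]
      exact (hcomm.zpow_zpow _ _))
  let fB : Multiplicative ℤ →* D 6 := zpowersHom (D 6) (a * c)
  have hfA : ∀ m n : Multiplicative ℤ, fA (m, n) =
      a ^ (Multiplicative.toAdd m) * ((a * c) ^ 3) ^ (Multiplicative.toAdd n) := by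
    intro m n
    rw [show fA (m, n) = zpowersHom (D 6) a m * zpowersHom (D 6) ((a * c) ^ 3) n from rfl,
      zpowersHom_apply, zpowersHom_apply]
  have hfB : ∀ n : Multiplicative ℤ, fB n = (a * c) ^ (Multiplicative.toAdd n) := by
    intro n
    rw [show fB n = zpowersHom (D 6) (a * c) n from rfl, zpowersHom_apply]
  have hglue : ∀ k : Multiplicative ℤ, fA (α k) = fB (β k) := by
    intro k
    rw [show α k = (1, k) from rfl, hfA, show β k = k ^ 3 from rfl, hfB, toAdd_one, zpow_zero,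
      one_mul, toAdd_pow, nsmul_eq_mul, zpow_mul, zpow_natCast]
  let θ : Am α β →* D 6 := Am.lift α β fA fB hglue
  have hθA : ∀ m n : Multiplicative ℤ, θ (Am.inl α β (m, n)) =
      a ^ (Multiplicative.toAdd m) * ((a * c) ^ 3) ^ (Multiplicative.toAdd n) := by
    intro m n
    rw [← hfA]
    exact Am.lift_inl α β fA fB hglue (m, n)
  have hθB : ∀ n : Multiplicative ℤ, θ (Am.inr α β n) = (a * c) ^ (Multiplicative.toAdd n) := by
    intro n
    rw [← hfB]
    exact Am.lift_inr α β fA fB hglue n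
  have hsurj : ∀ g : D 6, g ∈ θ.range := by
    intro g
    apply mem_of_gen
    have h1 : a ∈ θ.range := ⟨Am.inl α β (Multiplicative.ofAdd 1, 1), by
      rw [hθA]
      simp⟩
    have h2 : a * c ∈ θ.range := ⟨Am.inr α β (Multiplicative.ofAdd 1), by
      rw [hθB]
      simp⟩
    have h3 : c ∈ θ.range := by
      have h4 := mul_mem (inv_mem h1) h2
      rwa [inv_mul_cancel_left] at h4
    intro s
    rcases Bool.eq_or_eq_not s b with h | h
    · rw [h, ← hadef]
      exact h1
    · rw [h, ← hcdef]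
      exact h3
  let f : Am α β →* Equiv.Perm ((ℤ × ℤ) × ℤ) := (act φ len).comp θ
  have hfap : ∀ (h : Am α β) (v : (ℤ × ℤ) × ℤ), f h v =
      (φ (θ h) v.1, v.2 + Multiplicative.toAdd (len (θ h))) := fun _ _ => rfl
  have hfα : ∀ (k : Multiplicative ℤ) (v : (ℤ × ℤ) × ℤ), f (Am.inl α β (α k)) v =
      (v.1, v.2 + 6 * Multiplicative.toAdd k) := by
    intro k v
    have h1 : θ (Am.inl α β (α k)) = ((a * c) ^ 3) ^ (Multiplicative.toAdd k) := by
      rw [show α k = (1, k) from rfl, hθA, toAdd_one, zpow_zero, one_mul]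
    rw [hfap, h1, hlz, map_zpow, hz, one_zpow, Equiv.Perm.one_apply, toAdd_ofAdd]
  have hinj : Function.Injective f := by
    refine Pool.Agent.Y547.GE.t_pp _ _ _ _ α β f
      {v | (0 < v.1.1 ∧ v.1.2 < 0) ∨ (v.1.1 < 0 ∧ 0 < v.1.2) ∨
        (v.1.2 < v.1.1 ∧ -v.1.1 < v.1.2) ∨ (v.1.1 < v.1.2 ∧ v.1.2 < -v.1.1)}
      {v | (0 < v.1.1 ∧ v.1.1 < v.1.2) ∨ (v.1.1 < 0 ∧ v.1.2 < v.1.1)}
      (fun v => ((v.1.2.natAbs : ℕ) : WithBot ℕ)) ?_ ?_ ?_ ?_ ?_ ?_ ?_ ?_
    · rw [Set.disjoint_left]
      rintro ⟨⟨p, q⟩, n⟩ h1 h2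
      simp only [Set.mem_ofPred_eq] at h1 h2
      omega
    · exact ⟨((1, 0), 0), by simp⟩
    · exact ⟨((1, 2), 0), by simp⟩
    · rintro ⟨m, k⟩ hmk ⟨⟨p, q⟩, n⟩ hv
      have hm : Multiplicative.toAdd m ≠ 0 := by
        intro h
        apply hmk
        refine ⟨k, ?_⟩
        rw [show α k = (1, k) from rfl, show m = 1 from h]
      have h1 : f (Am.inl α β (m, k)) ((p, q), n) =
          ((p + Multiplicative.toAdd m * q, q), n + Multiplicative.toAdd (len (θ (Am.inl α β (m, k))))) := by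
        rw [hfap]
        congr 1
        rw [hθA, map_mul, map_zpow, map_zpow, hz, one_zpow, mul_one, ha, S_zpow]
      rw [h1]
      simp only [Set.mem_ofPred_eq] at hv ⊢
      refine ⟨?_, le_rfl⟩
      generalize Multiplicative.toAdd m = u at hm
      rcases hv with ⟨hp, hq⟩ | ⟨hp, hq⟩
      · rcases lt_or_gt_of_ne hm with hu | hu
        · have : u * q ≤ -q := by nlinarith
          omega
        · have : q ≤ u * q := by nlinarith
          omega
      · rcases lt_or_gt_of_ne hm with hu | hu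
        · have : -q ≤ u * q := by nlinarith
          omega
        · have : u * q ≤ q := by nlinarith
          omega
    · rintro m hm ⟨⟨p, q⟩, n⟩ hv
      have hm3 : Multiplicative.toAdd m % 3 ≠ 0 := by
        intro h
        apply hm
        obtain ⟨k, hk⟩ := Int.dvd_of_emod_eq_zero h
        refine ⟨Multiplicative.ofAdd k, ?_⟩
        apply Multiplicative.toAdd.injective
        rw [hk, show β (Multiplicative.ofAdd k) = (Multiplicative.ofAdd k) ^ 3 from rfl, toAdd_pow,
          toAdd_ofAdd, nsmul_eq_mul]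
        rfl
      have h1 : f (Am.inr α β m) ((p, q), n) = (((S * T) ^ (Multiplicative.toAdd m % 3)) (p, q),
          n + Multiplicative.toAdd (len (θ (Am.inr α β m)))) := by
        rw [hfap]
        congr 1
        rw [hθB, map_zpow, map_mul, ha, hc, X_zpow]
      rw [h1]
      have h2 : Multiplicative.toAdd m % 3 = 1 ∨ Multiplicative.toAdd m % 3 = 2 := by omega
      rcases h2 with h2 | h2
      · rw [h2, zpow_one, X_ap]
        simp only [Set.mem_ofPred_eq] at hv ⊢
        rw [Nat.cast_lt]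
        omega
      · rw [h2, show ((2 : ℤ)) = ((2 : ℕ) : ℤ) by rfl, zpow_natCast, X2_ap]
        simp only [Set.mem_ofPred_eq] at hv ⊢
        rw [Nat.cast_lt]
        omega
    · intro k v hv
      rw [hfα]
      exact ⟨hv, rfl⟩
    · intro k v hv
      rw [hfα]
      exact ⟨hv, rfl⟩
    · intro k hk
      have h1 := hfα k ((0, 0), 0)
      rw [hk, Equiv.Perm.one_apply] at h1
      have h2 := congrArg Prod.snd h1
      simp only at h2
      have h3 : Multiplicative.toAdd k = 0 := by omega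
      exact h3
  obtain ⟨h, rfl⟩ := hsurj g
  have h1 : f h = 1 := by
    apply Equiv.ext
    intro v
    rw [hfap, hg, hlg]
    simp
  have h2 : h = 1 := hinj (by rw [h1, map_one])
  rw [h2, map_one]

end Pool.Agent.Y219.AR
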